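import Pool.Agent.Helper10.QRH.StC

/-! Project QRH (MP_768c9c_nt), module C4: clean candidates and existence of selections. -/

set_option autoImplicit false
open Filter Topology
open scoped Classical

namespace Pool.Agent.Helper28.QRH

open Pool.Agent.Helper10.QRH

/-- exponential decay beats a linear factor -/
theorem lin_exp (δ ε : ℝ) (hδ : 0 < δ) (hε : 0 < ε) :
    ∃ K : ℕ, ∀ k : ℕ, K ≤ k → (k : ℝ) * (2 : ℝ) ^ (-(δ * k)) ≤ ε := by
  have hr : |(2 : ℝ) ^ (-δ)| < 1 := by
    rw [abs_of_pos (by positivity)]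
    exact Real.rpow_lt_one_of_one_lt_of_neg (by norm_num) (by linarith)
  have h1 := tendsto_pow_const_mul_const_pow_of_abs_lt_one 1 hr
  have h2 := h1.eventually (gt_mem_nhds hε)
  obtain ⟨K, hK⟩ := eventually_atTop.mp h2
  refine ⟨K, fun k hk => ?_⟩
  have h3 := hK k hk
  have h4 : ((2 : ℝ) ^ (-δ)) ^ k = (2 : ℝ) ^ (-(δ * k)) := by
    rw [← Real.rpow_natCast, ← Real.rpow_mul (by norm_num)]
    ring_nf
  rw [h4, pow_one] at h3
  exact h3.le

/-- integers divisible by an element of `T` in an interval -/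
theorem card_mult {P : Par} (hd : CdFacts P) (X L : ℕ) (T : Finset ℕ)
    (hT : ∀ p ∈ T, 0 < p ∧ p ≤ L) :
    ((((Finset.Ico X (X + L)).filter (fun n => ∃ p ∈ T, p ∣ n)).card : ℕ) : ℝ) ≤
      2 * L * ∑ p ∈ T, (1 : ℝ) / p := by
  have h1 : (Finset.Ico X (X + L)).filter (fun n => ∃ p ∈ T, p ∣ n) ⊆
      T.biUnion (fun p => (Finset.Ico X (X + L)).filter (fun n => p ∣ n)) := by
    intro n hn
    rw [Finset.mem_filter] at hn
    obtain ⟨h2, p, hp, hpn⟩ := hn
    rw [Finset.mem_biUnion]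
    exact ⟨p, hp, Finset.mem_filter.mpr ⟨h2, hpn⟩⟩
  have h2 : ((((Finset.Ico X (X + L)).filter (fun n => ∃ p ∈ T, p ∣ n)).card : ℕ) : ℝ) ≤
      ∑ p ∈ T, ((((Finset.Ico X (X + L)).filter (fun n => p ∣ n)).card : ℕ) : ℝ) := by
    have h3 := (Finset.card_le_card h1).trans Finset.card_biUnion_le
    exact_mod_cast h3
  refine h2.trans ?_
  rw [Finset.mul_sum]
  apply Finset.sum_le_sum
  intro p hp
  obtain ⟨hp0, hpL⟩ := hT p hp
  have hp0' : (0 : ℝ) < p := by exact_mod_cast hp0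
  have hpL' : (p : ℝ) ≤ L := by exact_mod_cast hpL
  have h4 : ((Finset.Ico X (X + L)).filter (fun n => p ∣ n)).card =
      (((Finset.Ico X (X + L)).filter (fun n => p ∣ n)).image (fun n => n / p)).card := by
    rw [Finset.card_image_of_injOn]
    intro a ha b hb hab
    rw [Finset.mem_coe, Finset.mem_filter] at ha hb
    simp only at hab
    rw [← Nat.mul_div_cancel' ha.2, ← Nat.mul_div_cancel' hb.2, hab]
  rw [h4]
  refine (hd.mult_count hp0 (x := X) (h := L) _ ?_).trans ?_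
  · intro a ha
    rw [Finset.mem_image] at ha
    obtain ⟨n, hn, rfl⟩ := ha
    rw [Finset.mem_filter, Finset.mem_Ico] at hn
    rw [Nat.mul_div_cancel' hn.2]
    exact hn.1
  · have h5 : (1 : ℝ) ≤ L / p := by
      rw [le_div_iff₀ hp0']
      linarith
    have h6 : 2 * (L : ℝ) * (1 / p) = L / p + L / p := by ring
    rw [h6]
    linarith

theorem cleanCount (P : Par) (h0 : PhiFacts P) (h1 : SizeFacts P) (hc : CellFacts P)
    (hd : CdFacts P) (h2 : CandSum P) (h3 : BadSum P) (h4 : CL P) : CleanCount P := by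
  obtain ⟨hν0, hν1, hκν, hην, hφν, hdν, hsν, hg0, hgν, hgκ⟩ := h0.small
  have hκ := P.κ0
  have hη := P.η0
  have hc0 := P.c0
  obtain ⟨K1, hK1⟩ := h1
  obtain ⟨K2, hK2⟩ := h2
  obtain ⟨K3, hK3⟩ := h3
  obtain ⟨K4, hK4⟩ := h4
  obtain ⟨L1, hL1⟩ := lin_exp (0.4 * P.η) (P.c / 8) (by positivity) (by positivity)
  obtain ⟨L2, hL2⟩ := lin_exp (P.η * P.κ / 2) (P.c / 8) (by positivity) (by positivity)
  obtain ⟨L3, hL3⟩ := lin_exp (0.9 * P.ν) (P.c / 8) (by positivity) (by positivity)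
  obtain ⟨L4, hL4⟩ := lin_exp P.g (P.c / 8) hg0 (by positivity)
  obtain ⟨L5, hL5⟩ := exists_nat_ge (1 / P.ν)
  refine ⟨max (max (max K1 K2) (max K3 K4)) (max (max L1 L2) (max (max L3 L4) (max L5 1))), ?_⟩
  intro k0 hk0 hFB hMany k hk j hj hbad i hi
  simp only [max_le_iff] at hk0
  obtain ⟨⟨⟨hk1, hk2⟩, hk3, hk4⟩, ⟨hl1, hl2⟩, ⟨hl3, hl4⟩, hl5, hl6⟩ := hk0
  obtain ⟨s1, s2, s3, s4, s5, s6, s7, s8, s9⟩ := hK1 k (by omega)
  have hkpos : (0 : ℝ) < k := by
    have : 0 < k := by omega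
    exact_mod_cast this
  have hνk : 1 ≤ P.ν * k := by
    have h5 : (L5 : ℝ) ≤ k := by
      have : L5 ≤ k := by omega
      exact_mod_cast this
    have h6 := hL5.trans h5
    rw [div_le_iff₀ hν0] at h6
    linarith
  set X : ℕ := 2 ^ k + j * 2 ^ P.e k + i * 2 ^ (P.e k - P.e' k) with hX
  set L : ℕ := 2 ^ (P.e k - P.e' k) with hL
  have hpart : P.part k j i = Finset.Ico X (X + L) := by
    unfold Par.part
    rw [hX, hL]
    congr 1
    ring
  have hLpos : 0 < L := by positivity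
  have hLR : (0 : ℝ) < L := by exact_mod_cast hLpos
  have hLcast : (L : ℝ) = (2 : ℝ) ^ (P.e k - P.e' k) := by rw [hL]; push_cast; rfl
  rw [← hLcast] at s5 s6 s9
  have hX1 : 2 ^ k ≤ X := by rw [hX]; omega
  have hX2 : X + L ≤ 2 ^ (k + 1) := by
    have a1 : (i + 1) * 2 ^ (P.e k - P.e' k) ≤ 2 ^ P.e k := by
      have : 2 ^ P.e k = 2 ^ P.e' k * 2 ^ (P.e k - P.e' k) := by
        rw [← pow_add]
        congr 1
        omega
      rw [this]
      exact Nat.mul_le_mul_right _ hi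
    have a2 : (j + 1) * 2 ^ P.e k ≤ 2 ^ k := by
      have : 2 ^ k = 2 ^ (k - P.e k) * 2 ^ P.e k := by
        rw [← pow_add]
        congr 1
        omega
      rw [this]
      exact Nat.mul_le_mul_right _ hj
    have a3 : X + L = 2 ^ k + j * 2 ^ P.e k + (i + 1) * 2 ^ (P.e k - P.e' k) := by
      rw [hX, hL]
      ring
    have a4 : (j + 1) * 2 ^ P.e k = j * 2 ^ P.e k + 2 ^ P.e k := by ring
    rw [a3, pow_succ]
    omega
  have hLhalf : (L : ℝ) ≤ (2 : ℝ) ^ ((k : ℝ) / 2) := by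
    have a1 : (L : ℝ) ≤ (2 : ℝ) ^ P.e k := by
      rw [hLcast]
      exact pow_le_pow_right₀ (by norm_num) (Nat.sub_le _ _)
    refine a1.trans (s4.trans ?_)
    apply Real.rpow_le_rpow_of_exponent_le (by norm_num)
    have : 0 ≤ P.d * k := by rw [hdν]; positivity
    linarith
  have hL5ν : (2 : ℝ) ^ ((1/2 - 5 * P.ν) * k) ≤ L := by
    refine le_trans ?_ s5
    apply Real.rpow_le_rpow_of_exponent_le (by norm_num)
    have : 0 ≤ P.ν * k := by positivity
    linarith
  -- elements of the part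
  have hmem : ∀ n ∈ Finset.Ico X (X + L), n ≠ 0 ∧ Nat.log 2 n = k ∧ P.badN n := by
    intro n hn
    rw [← hpart] at hn
    have a1 := hc.part_subset (by omega) hi hn
    obtain ⟨a2, a3, a4⟩ := (hc.mem_cell hj).mp a1
    refine ⟨a2, a3, ?_⟩
    unfold Par.badN
    rw [a3, a4]
    exact hbad
  have hMn := hMany k hk X L hX1 hX2 hL5ν hLhalf
  set A := (Finset.Ico X (X + L)).filter (fun n => ∃ q m : ℕ, q.Prime ∧ n = q * m ∧
      (2 : ℝ) ^ ((1/2 + P.κ) * k) ≤ q ∧
      ∀ p : ℕ, p.Prime → p ∣ m → (2 : ℝ) ^ (P.η * k) ≤ p) with hA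
  set Cl := (Finset.Ico X (X + L)).filter (fun n => ∃ x ∈ P.clean k0 k, x.1 * x.2 = n) with hCl
  rw [hpart]
  -- bad primes
  set Tb := (Finset.range (L + 1)).filter (fun p => 2 ^ k0 ≤ p ∧ P.badN p ∧
    (2 : ℝ) ^ (P.η * k) ≤ p) with hTb
  set Tc := (Finset.range (L + 1)).filter (fun p => P.cand k0 p ∧
    (2 : ℝ) ^ (P.η * k) ≤ p) with hTc
  have hpow0 : (1 : ℝ) ≤ (2 : ℝ) ^ (P.η * k) := by
    apply Real.one_le_rpow (by norm_num)
    positivity
  have hTpos : ∀ p ∈ Tb ∪ Tc, 0 < p ∧ p ≤ L := by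
    intro p hp
    rw [Finset.mem_union, hTb, hTc, Finset.mem_filter, Finset.mem_filter, Finset.mem_range] at hp
    rcases hp with ⟨b1, b2, b3, b4⟩ | ⟨b1, b2, b4⟩
    · have : (0 : ℝ) < p := by linarith
      exact ⟨by exact_mod_cast this, by omega⟩
    · have : (0 : ℝ) < p := by linarith
      exact ⟨by exact_mod_cast this, by omega⟩
  set Ua := (Finset.Ico X (X + L)).filter (fun n => ∃ p ∈ Tb ∪ Tc, p ∣ n) with hUa
  set Ub := (Finset.Ico X (X + L)).filter (fun n => ∃ q m k'' m'' : ℕ, (q, m) ∈ P.Cd k ∧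
    k0 ≤ k'' ∧ (q, m'') ∈ P.Cd k'' ∧ m'' ≠ m ∧ q * m = n) with hUb
  have hsub : A ⊆ (Cl ∪ Ua) ∪ Ub := by
    intro n hn
    rw [hA, Finset.mem_filter] at hn
    obtain ⟨hnI, q, m, hq, hnqm, hqb, hpm⟩ := hn
    obtain ⟨hn0, hnk, hnb⟩ := hmem n hnI
    have hm0 : 0 < m := by
      rcases Nat.eq_zero_or_pos m with h | h
      · rw [h, mul_zero] at hnqm
        exact absurd hnqm hn0
      · exact h
    have hnI' := Finset.mem_Ico.mp hnI
    have hCd : (q, m) ∈ P.Cd k := by
      refine ⟨hq, hm0, ?_, ?_, hqb, hpm, ?_⟩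
      · show 2 ^ k ≤ q * m
        rw [← hnqm]
        omega
      · show q * m < 2 ^ (k + 1)
        rw [← hnqm]
        omega
      · show P.badN (q * m)
        rw [← hnqm]
        exact hnb
    rw [Finset.mem_union, Finset.mem_union]
    by_cases hcl : (q, m) ∈ P.clean k0 k
    · left; left
      rw [hCl, Finset.mem_filter]
      exact ⟨hnI, (q, m), hcl, hnqm.symm⟩
    · have hcl' : ¬ ((∀ p : ℕ, p.Prime → p ∣ m → P.Ord k0 p) ∧
          ∀ k', k0 ≤ k' → ∀ m', (q, m') ∈ P.Cd k' → m' = m) := by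
        intro h
        exact hcl ⟨hCd, h.1, h.2⟩
      rw [not_and_or] at hcl'
      rcases hcl' with h | h
      · left; right
        push Not at h
        obtain ⟨p, hp, hpdm, hpO⟩ := h
        have hpb := hpm p hp hpdm
        rw [hUa, Finset.mem_filter]
        refine ⟨hnI, p, ?_, ?_⟩
        · -- `p ≤ L`
          have hpL : p ≤ L := by
            have b1 : p ≤ m := Nat.le_of_dvd hm0 hpdm
            have b2 := (hd.cof (k := k) (by
              have : (2 : ℝ) ≤ k := by nlinarith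
              exact_mod_cast this) hCd).1
            have b3 : (m : ℝ) ≤ L := by
              refine b2.trans (le_trans ?_ s5)
              apply Real.rpow_le_rpow_of_exponent_le (by norm_num)
              nlinarith
            have b4 : m ≤ L := by exact_mod_cast b3
            omega
          have hP1 : P.P1 k0 ≤ p := by
            have b1 : (P.P1 k0 : ℝ) ≤ p := by
              refine le_trans ?_ hpb
              unfold Par.P1
              push_cast
              rw [← Real.rpow_natCast]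
              apply Real.rpow_le_rpow_of_exponent_le (by norm_num)
              refine (Nat.floor_le (by positivity)).trans ?_
              have : (k0 : ℝ) ≤ k := by exact_mod_cast hk
              nlinarith
            exact_mod_cast b1
          rw [Finset.mem_union]
          by_cases hcand : P.cand k0 p
          · right
            rw [hTc, Finset.mem_filter, Finset.mem_range]
            exact ⟨by omega, hcand, hpb⟩
          · left
            have b1 : ¬ (p < 2 ^ k0 ∨ ¬ P.badN p) := by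
              intro b2
              exact hpO ⟨hp, hP1, b2, hcand⟩
            push Not at b1
            rw [hTb, Finset.mem_filter, Finset.mem_range]
            exact ⟨by omega, b1.1, b1.2, hpb⟩
        · rw [hnqm]
          exact Dvd.dvd.mul_left hpdm q
      · right
        push Not at h
        obtain ⟨k'', hk'', m'', hm'', hne⟩ := h
        rw [hUb, Finset.mem_filter]
        exact ⟨hnI, q, m, k'', m'', hCd, hk'', hm'', hne, hnqm.symm⟩
  have hcard : (A.card : ℝ) ≤ Cl.card + Ua.card + Ub.card := by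
    have b1 := (Finset.card_le_card hsub).trans (Finset.card_union_le _ _)
    have b2 := Finset.card_union_le Cl Ua
    have b3 : A.card ≤ Cl.card + Ua.card + Ub.card := by omega
    exact_mod_cast b3
  -- the two sums
  have hUaB : (Ua.card : ℝ) ≤ 2 * L * ((2 : ℝ) ^ (-(0.4 * P.η * k)) +
      (2 : ℝ) ^ (-(P.η * P.κ / 2 * k))) := by
    refine (card_mult hd X L (Tb ∪ Tc) hTpos).trans ?_
    apply mul_le_mul_of_nonneg_left _ (by positivity)
    have b1 : ∑ p ∈ Tb ∪ Tc, (1 : ℝ) / p ≤ ∑ p ∈ Tb, (1 : ℝ) / p + ∑ p ∈ Tc, (1 : ℝ) / p := by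
      rw [← Finset.sum_union_inter]
      have : 0 ≤ ∑ p ∈ Tb ∩ Tc, (1 : ℝ) / p := Finset.sum_nonneg fun p _ => by positivity
      linarith
    refine b1.trans (add_le_add ?_ ?_)
    · have b2 := hK3 k0 hk3 hFB ((2 : ℝ) ^ (P.η * k)) hpow0 Tb (by
        intro n hn
        rw [hTb, Finset.mem_filter] at hn
        exact ⟨hn.2.1, hn.2.2.1, hn.2.2.2⟩)
      refine b2.trans (le_of_eq ?_)
      rw [← Real.rpow_mul (by norm_num)]
      congr 1
      ring
    · have b3 := hK2 k0 hk2 hFB Tc (by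
        intro q hq
        rw [hTc, Finset.mem_filter] at hq
        exact hq.2.1)
      have b4 : ∑ p ∈ Tc, (1 : ℝ) / p ≤
          ∑ p ∈ Tc, (2 : ℝ) ^ (-(P.η * P.κ / 2 * k)) * (p : ℝ) ^ (-1 + P.κ / 2 + 4 * P.g) := by
        apply Finset.sum_le_sum
        intro p hp
        rw [hTc, Finset.mem_filter] at hp
        have c1 : (1 : ℝ) ≤ p := hpow0.trans hp.2.2
        have c0 : (0 : ℝ) < p := by linarith
        have c2 : (1 : ℝ) / p = (p : ℝ) ^ (-(P.κ / 2)) * (p : ℝ) ^ (-1 + P.κ / 2) := by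
          rw [← Real.rpow_add c0, one_div, ← Real.rpow_neg_one]
          congr 1
          ring
        rw [c2]
        apply mul_le_mul
        · have c3 : (2 : ℝ) ^ (-(P.η * P.κ / 2 * k)) = ((2 : ℝ) ^ (P.η * k)) ^ (-(P.κ / 2)) := by
            rw [← Real.rpow_mul (by norm_num)]
            congr 1
            ring
          rw [c3]
          exact Real.rpow_le_rpow_of_nonpos (by linarith) hp.2.2 (by linarith)
        · apply Real.rpow_le_rpow_of_exponent_le c1
          linarith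
        · positivity
        · positivity
      refine b4.trans ?_
      rw [← Finset.mul_sum]
      have b5 : (2 : ℝ) ^ (-(P.κ / 2 * k0)) ≤ 1 := by
        apply Real.rpow_le_one_of_one_le_of_nonpos (by norm_num)
        have : 0 ≤ P.κ / 2 * k0 := by positivity
        linarith
      calc (2 : ℝ) ^ (-(P.η * P.κ / 2 * k)) * ∑ p ∈ Tc, (p : ℝ) ^ (-1 + P.κ / 2 + 4 * P.g)
          ≤ (2 : ℝ) ^ (-(P.η * P.κ / 2 * k)) * 1 :=
            mul_le_mul_of_nonneg_left (b3.trans b5) (by positivity)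
        _ = _ := mul_one _
  have hUbB : (Ub.card : ℝ) ≤ L * (2 : ℝ) ^ (-(0.9 * P.ν * k)) := by
    have hex : ∀ n ∈ Ub, ∃ y : ℕ × ℕ × ℕ, y.1 * y.2.2 = n ∧ (y.1, y.2.2) ∈ P.Cd k ∧
        y.2.1 ≠ y.2.2 ∧ ∃ k'' : ℕ, k0 ≤ k'' ∧ (y.1, y.2.1) ∈ P.Cd k'' := by
      intro n hn
      rw [hUb, Finset.mem_filter] at hn
      obtain ⟨_, q, m, k'', m'', b1, b2, b3, b4, b5⟩ := hn
      exact ⟨(q, m'', m), b5, b1, b4, k'', b2, b3⟩
    choose! F hF1 hF2 hF3 hF4 using hex
    have hinj : Set.InjOn F Ub := by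
      intro a ha b hb hab
      rw [← hF1 a ha, ← hF1 b hb, hab]
    rw [← Finset.card_image_of_injOn hinj]
    refine hK4 k0 hk4 hFB k hk X L hX1 hX2 hLhalf (15 * P.ν) (4.02 * P.ν) (Or.inr ⟨rfl, rfl⟩) s5
      (Ub.image F) ?_
    intro y hy
    rw [Finset.mem_image] at hy
    obtain ⟨n, hn, rfl⟩ := hy
    have d1 := hF1 n hn
    have d2 := hF2 n hn
    have d3 := hF3 n hn
    obtain ⟨k'', hk'', d4⟩ := hF4 n hn
    have hnI : n ∈ Finset.Ico X (X + L) := by
      rw [hUb, Finset.mem_filter] at hn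
      exact hn.1
    rw [Finset.mem_Ico] at hnI
    refine ⟨k'', hk'', d4, by rw [d1]; exact hnI.1, by rw [d1]; exact hnI.2, ?_, ?_⟩
    · refine le_trans ?_ d2.2.2.2.2.1
      apply Real.rpow_le_rpow_of_exponent_le (by norm_num)
      nlinarith
    · by_cases hdvd : (F n).2.1 ∣ (F n).2.2
      · right; left
        obtain ⟨b, hb⟩ := hdvd
        have hb1 : b ≠ 1 := by
          intro h
          rw [h, mul_one] at hb
          exact d3 hb.symm
        obtain ⟨p, hp, hpb⟩ := Nat.exists_prime_and_dvd hb1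
        have hpm : p ∣ (F n).2.2 := by
          rw [hb]
          exact Dvd.dvd.mul_left hpb _
        have e1 := d2.2.2.2.2.2.1 p hp hpm
        have hm0 : 0 < (F n).2.2 := d2.2.1
        have hb0 : 0 < b := by
          rcases Nat.eq_zero_or_pos b with h | h
          · rw [h, mul_zero] at hb
            omega
          · exact h
        have e2 : (2 : ℝ) ^ (P.η * k) ≤ b := e1.trans (by
          exact_mod_cast Nat.le_of_dvd hb0 hpb)
        have e3 : (2 : ℕ) ^ k'' ≤ (F n).1 * (F n).2.1 := d4.2.2.1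
        have e4 : (F n).1 * (F n).2.2 < 2 ^ (k + 1) := d2.2.2.2.1
        have e5 : ((F n).1 * (F n).2.1) * b < 2 ^ (k + 1) := by
          have : ((F n).1 * (F n).2.1) * b = (F n).1 * (F n).2.2 := by
            rw [hb, mul_assoc]
          rw [this]
          exact e4
        have e6 : (2 : ℝ) ^ (k'' : ℝ) * (2 : ℝ) ^ (P.η * k) < (2 : ℝ) ^ ((k : ℝ) + 1) := by
          have f1 : (2 : ℝ) ^ (k'' : ℝ) ≤ ((F n).1 * (F n).2.1 : ℕ) := by
            rw [Real.rpow_natCast]
            exact_mod_cast e3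
          have f2 : ((((F n).1 * (F n).2.1 : ℕ) : ℝ)) * b < (2 : ℝ) ^ ((k : ℝ) + 1) := by
            have f3 : (2 : ℝ) ^ ((k : ℝ) + 1) = ((2 ^ (k + 1) : ℕ) : ℝ) := by
              have : (k : ℝ) + 1 = ((k + 1 : ℕ) : ℝ) := by push_cast; ring
              rw [this, Real.rpow_natCast]
              push_cast
              rfl
            rw [f3]
            exact_mod_cast e5
          refine lt_of_le_of_lt ?_ f2
          exact mul_le_mul f1 e2 (by positivity) (by positivity)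
        rw [← Real.rpow_add (by norm_num)] at e6
        have e7 := (Real.rpow_lt_rpow_left_iff (by norm_num : (1 : ℝ) < 2)).mp e6
        nlinarith
      · left
        exact hdvd
  -- final computation
  have f1 := hL1 k (by omega)
  have f2 := hL2 k (by omega)
  have f3 := hL3 k (by omega)
  have f4 := hL4 k (by omega)
  have key : (P.nsel k : ℝ) ≤ Cl.card := by
    have g1 : (2 : ℝ) ^ (-(0.4 * P.η * k)) ≤ P.c / 8 / k := by
      rw [le_div_iff₀ hkpos, mul_comm]
      exact f1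
    have g2 : (2 : ℝ) ^ (-(P.η * P.κ / 2 * k)) ≤ P.c / 8 / k := by
      rw [le_div_iff₀ hkpos, mul_comm]
      exact f2
    have g3 : (2 : ℝ) ^ (-(0.9 * P.ν * k)) ≤ P.c / 8 / k := by
      rw [le_div_iff₀ hkpos, mul_comm]
      exact f3
    have g4 : (2 : ℝ) ^ (-(P.g * k)) ≤ P.c / 8 / k := by
      rw [le_div_iff₀ hkpos, mul_comm]
      exact f4
    have g5 : P.c * L / k = 8 * (L * (P.c / 8 / k)) := by ring
    have g6 : (Ua.card : ℝ) ≤ 4 * (L * (P.c / 8 / k)) := by
      refine hUaB.trans ?_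
      have : 4 * (L * (P.c / 8 / k)) = 2 * L * (P.c / 8 / k + P.c / 8 / k) := by ring
      rw [this]
      exact mul_le_mul_of_nonneg_left (add_le_add g1 g2) (by positivity)
    have g7 : (Ub.card : ℝ) ≤ L * (P.c / 8 / k) :=
      hUbB.trans (mul_le_mul_of_nonneg_left g3 (by positivity))
    have g8 : (P.nsel k : ℝ) ≤ 2 * (L * (P.c / 8 / k)) := by
      refine s9.trans ?_
      exact mul_le_mul_of_nonneg_left (mul_le_mul_of_nonneg_left g4 (by positivity)) (by norm_num)
    rw [g5] at hMn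
    linarith
  exact_mod_cast key

theorem existsSel (P : Par) (hc : CellFacts P) (_hd : CdFacts P) (h1 : SizeFacts P)
    (h : CleanCount P) : ExistsSel P := by
  obtain ⟨K1, hK1⟩ := h1
  obtain ⟨K2, hK2⟩ := h
  refine ⟨max K1 K2, ?_⟩
  intro k0 hk0 hFB hMany
  rw [max_le_iff] at hk0
  have hcl := hK2 k0 hk0.2 hFB hMany
  have hex : ∀ k j i : ℕ, ∃ Q : Finset ℕ, k0 ≤ k → j < 2 ^ (k - P.e k) → P.bad k j →
      i < 2 ^ P.e' k → Q ⊆ (P.part k j i).filter (fun n => ∃ x ∈ P.clean k0 k, x.1 * x.2 = n) ∧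
        Q.card = P.nsel k := by
    intro k j i
    by_cases hh : k0 ≤ k ∧ j < 2 ^ (k - P.e k) ∧ P.bad k j ∧ i < 2 ^ P.e' k
    · obtain ⟨a1, a2, a3, a4⟩ := hh
      obtain ⟨Q, hQ1, hQ2⟩ := Finset.exists_subset_card_eq (hcl k a1 j a2 a3 i a4)
      exact ⟨Q, fun _ _ _ _ => ⟨hQ1, hQ2⟩⟩
    · refine ⟨∅, fun a1 a2 a3 a4 => ?_⟩
      exact absurd ⟨a1, a2, a3, a4⟩ hh
  choose Q hQ using hex
  refine ⟨⟨{x | ∃ k j i, k0 ≤ k ∧ j < 2 ^ (k - P.e k) ∧ P.bad k j ∧ i < 2 ^ P.e' k ∧
    x ∈ P.clean k0 k ∧ x.1 * x.2 ∈ Q k j i}, ?_, ?_⟩⟩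
  · rintro x ⟨k, j, i, a1, _, _, _, a5, _⟩
    exact ⟨k, a1, a5⟩
  · intro k hk j hj hb i hi
    obtain ⟨hQ1, hQ2⟩ := hQ k j i hk hj hb hi
    rw [← hQ2]
    congr 1
    ext n
    rw [Finset.mem_filter]
    constructor
    · rintro ⟨hn, x, ⟨k', j', i', b1, b2, b3, b4, b5, b6⟩, b7⟩
      rw [b7] at b6
      have b8 := (hQ k' j' i' b1 b2 b3 b4).1 b6
      rw [Finset.mem_filter] at b8
      have c1 := hc.part_subset (by have := (hK1 k' (by omega)).1; omega) b4 b8.1
      have c2 := hc.part_subset (by have := (hK1 k (by omega)).1; omega) hi hn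
      obtain ⟨_, c4, c5⟩ := (hc.mem_cell b2).mp c1
      obtain ⟨_, c7, c8⟩ := (hc.mem_cell hj).mp c2
      have hk' : k' = k := c4.symm.trans c7
      subst hk'
      have hj' : j' = j := c5.symm.trans c8
      subst hj'
      have hi' : i' = i := hc.part_unique b8.1 hn
      subst hi'
      exact b6
    · intro hn
      have b1 := hQ1 hn
      rw [Finset.mem_filter] at b1
      obtain ⟨b2, x, b3, b4⟩ := b1
      exact ⟨b2, x, ⟨k, j, i, hk, hj, hb, hi, b3, by rw [b4]; exact hn⟩, b4⟩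

end Pool.Agent.Helper28.QRH
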