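import Pool.Agent.Helper10.QRH.StC

/-! Project QRH (MP_768c9c_nt), module C8e: class V, proper multiples of selected integers. -/

set_option autoImplicit false
open Filter Topology
open scoped Classical

namespace Pool.Agent.Helper28.QRH

open Pool.Agent.Helper10.QRH

namespace C8e

theorem card_range_bound (G : Finset ℕ) (D : ℝ) (hD : 0 ≤ D)
    (h : ∀ x ∈ G, ∀ y ∈ G, (x : ℝ) - y ≤ D) : (G.card : ℝ) ≤ D + 1 := by
  rcases G.eq_empty_or_nonempty with hG | hG
  · rw [hG]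
    simp
    linarith
  · have h1 := h _ (G.max'_mem hG) _ (G.min'_mem hG)
    have h2 : G ⊆ Finset.Icc (G.min' hG) (G.max' hG) := by
      intro x hx
      exact Finset.mem_Icc.mpr ⟨G.min'_le x hx, G.le_max' x hx⟩
    have h3 := Finset.card_le_card h2
    rw [Nat.card_Icc] at h3
    have h4 : G.min' hG ≤ G.max' hG := G.min'_le _ (G.max'_mem hG)
    have h5 : G.card + G.min' hG ≤ G.max' hG + 1 := by omega
    have h6 : (G.card : ℝ) + G.min' hG ≤ G.max' hG + 1 := by exact_mod_cast h5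
    linarith

/-- selected integers in a short interval -/
theorem card_sel {P : Par} (hc : CellFacts P) (hd : CdFacts P) {k0 : ℕ} (S : P.Sel k0) {k1 : ℕ}
    (he1 : P.e' k1 ≤ P.e k1) (a Y H : ℕ) (ha : 0 < a) (J : Finset ℕ)
    (hJ : ∀ n ∈ J, n ≠ 0 ∧ Nat.log 2 n = k1 ∧ (∃ x ∈ S.S, x.1 * x.2 = n) ∧ Y ≤ a * n ∧
      a * n < Y + H) :
    (J.card : ℝ) ≤ P.nsel k1 * ((H : ℝ) / (a * (2 : ℝ) ^ (P.e k1 - P.e' k1)) + 2) := by
  set L : ℕ := 2 ^ (P.e k1 - P.e' k1) with hL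
  have hL0 : 0 < L := by positivity
  have hLR : (0 : ℝ) < L := by exact_mod_cast hL0
  have haR : (0 : ℝ) < a := by exact_mod_cast ha
  have hLc : (2 : ℝ) ^ (P.e k1 - P.e' k1) = L := by rw [hL]; push_cast; rfl
  rw [hLc]
  have hE : 2 ^ P.e k1 = 2 ^ P.e' k1 * L := by
    rw [hL, ← pow_add]
    congr 1
    omega
  set g : ℕ → ℕ := fun n => (n - 2 ^ k1) / L with hg
  have hge : ∀ n ∈ J, 2 ^ k1 ≤ n := by
    intro n hn
    obtain ⟨b1, b2, _⟩ := hJ n hn
    rw [← b2]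
    exact Nat.pow_log_le_self 2 b1
  -- fibres
  have hfib : ∀ γ ∈ J.image g, (J.filter (fun n => g n = γ)).card ≤ P.nsel k1 := by
    intro γ hγ
    rw [Finset.mem_image] at hγ
    obtain ⟨n0, hn0, hγ0⟩ := hγ
    obtain ⟨b1, b2, ⟨x, hx, hxn⟩, _⟩ := hJ n0 hn0
    obtain ⟨k', hk', hx'⟩ := S.clean x hx
    have hCd := hx'.1
    have b3 := hd.block hCd
    rw [hxn, b2] at b3
    subst b3
    have hbN : P.badN n0 := by
      have := hCd.2.2.2.2.2.2
      rw [hxn] at this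
      exact this
    have hj := hc.idx_lt b1
    rw [b2] at hj
    have hbad : P.bad k1 (P.idx n0) := by
      unfold Par.badN at hbN
      rw [b2] at hbN
      exact hbN
    have hcell := (hc.mem_cell hj).mpr ⟨b1, b2, rfl⟩
    obtain ⟨i, hi, hpart⟩ := hc.exists_part he1 hcell
    have hcount := S.count k1 hk' _ hj hbad i hi
    rw [← hcount]
    apply Finset.card_le_card
    intro n hn
    rw [Finset.mem_filter] at hn
    obtain ⟨hnJ, hgn⟩ := hn
    have hpn0 := hpart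
    unfold Par.part at hpn0
    rw [Finset.mem_Ico, ← hL] at hpn0
    have hγ1 : γ = P.idx n0 * 2 ^ P.e' k1 + i := by
      rw [← hγ0, hg]
      simp only
      have c1 : P.idx n0 * 2 ^ P.e k1 = P.idx n0 * 2 ^ P.e' k1 * L := by rw [hE]; ring
      rw [c1] at hpn0
      apply Nat.div_eq_of_lt_le
      · have : (P.idx n0 * 2 ^ P.e' k1 + i) * L = P.idx n0 * 2 ^ P.e' k1 * L + i * L := by ring
        rw [this]
        omega
      · have : (P.idx n0 * 2 ^ P.e' k1 + i).succ * L =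
            P.idx n0 * 2 ^ P.e' k1 * L + (i + 1) * L := by
          rw [Nat.succ_eq_add_one]
          ring
        rw [this]
        have := hge n0 hn0
        omega
    rw [Finset.mem_filter]
    refine ⟨?_, (hJ n hnJ).2.2.1⟩
    unfold Par.part
    rw [Finset.mem_Ico, ← hL]
    have c1 : P.idx n0 * 2 ^ P.e k1 = P.idx n0 * 2 ^ P.e' k1 * L := by rw [hE]; ring
    rw [c1]
    have c2 := Nat.div_mul_le_self (n - 2 ^ k1) L
    have c3 := Nat.lt_div_mul_add (a := n - 2 ^ k1) hL0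
    have c4 : (n - 2 ^ k1) / L = γ := hgn
    rw [c4, hγ1] at c2 c3
    have c5 : (P.idx n0 * 2 ^ P.e' k1 + i) * L = P.idx n0 * 2 ^ P.e' k1 * L + i * L := by ring
    have c6 : (i + 1) * L = i * L + L := by ring
    rw [c5] at c2 c3
    rw [c6]
    have := hge n hnJ
    omega
  have hcard := Finset.card_le_mul_card_image J (P.nsel k1) hfib
  have himg : ((J.image g).card : ℝ) ≤ (H : ℝ) / (a * L) + 1 + 1 := by
    apply card_range_bound _ _ (by positivity)
    intro u hu v hv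
    rw [Finset.mem_image] at hu hv
    obtain ⟨n, hn, rfl⟩ := hu
    obtain ⟨n', hn', rfl⟩ := hv
    obtain ⟨_, _, _, b4, b5⟩ := hJ n hn
    obtain ⟨_, _, _, b4', b5'⟩ := hJ n' hn'
    have c1 := Nat.div_mul_le_self (n - 2 ^ k1) L
    have c2 := Nat.lt_div_mul_add (a := n' - 2 ^ k1) hL0
    have c3 := hge n hn
    have c4 := hge n' hn'
    have d1 : ((g n : ℕ) : ℝ) * L + (2 : ℝ) ^ k1 ≤ n := by
      have : g n * L + 2 ^ k1 ≤ n := by
        rw [hg]
        simp only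
        omega
      exact_mod_cast this
    have d2 : (n' : ℝ) < ((g n' : ℕ) : ℝ) * L + L + (2 : ℝ) ^ k1 := by
      have : n' < g n' * L + L + 2 ^ k1 := by
        rw [hg]
        simp only
        omega
      exact_mod_cast this
    have d3 : (a : ℝ) * n < (Y : ℝ) + H := by exact_mod_cast b5
    have d4 : (Y : ℝ) ≤ (a : ℝ) * n' := by exact_mod_cast b4'
    have d5 : ((g n : ℝ) - g n' - 1) * (a * L) ≤ H := by
      have e1 : ((g n : ℝ) - g n' - 1) * L ≤ (n : ℝ) - n' := by linarith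
      have e2 : (a : ℝ) * (((g n : ℝ) - g n' - 1) * L) ≤ a * ((n : ℝ) - n') :=
        mul_le_mul_of_nonneg_left e1 haR.le
      nlinarith
    have d6 : (g n : ℝ) - g n' - 1 ≤ H / (a * L) := by
      rw [le_div_iff₀ (by positivity)]
      exact d5
    linarith
  have h1 : (J.card : ℝ) ≤ P.nsel k1 * ((J.image g).card : ℝ) := by exact_mod_cast hcard
  refine h1.trans ?_
  apply mul_le_mul_of_nonneg_left _ (Nat.cast_nonneg _)
  linarith

theorem one_scale {P : Par} (h0 : PhiFacts P) (hc : CellFacts P) (hd : CdFacts P) {k0 : ℕ}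
    (S : P.Sel k0) {k k1 : ℕ} (hk : 1 ≤ k) (hk1 : 1 ≤ k1) (he1 : P.e' k1 ≤ P.e k1)
    (hs1 : (2 : ℝ) ^ (P.e k1 - P.e' k1) ≤ 4 * (2 : ℝ) ^ ((1/2 - P.d - 4 * P.ν) * k1))
    (hs2 : (2 : ℝ) ^ ((1/2 - 0.02 * P.ν) * k) ≤ (2 : ℝ) ^ P.e k)
    (hkk : (1 - 7 * P.ν) * k < k1) (a Y : ℕ) (ha : 2 ≤ a) (J : Finset ℕ)
    (hJ : ∀ n ∈ J, n ≠ 0 ∧ Nat.log 2 n = k1 ∧ (∃ x ∈ S.S, x.1 * x.2 = n) ∧ Y ≤ a * n ∧
      a * n < Y + 2 ^ P.e k) (hY : ∀ n ∈ J, 2 ^ k ≤ a * n ∧ a * n < 2 ^ (k + 1)) :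
    (J.card : ℝ) * P.Wk k1 ≤ 68 * P.Gk k * (a : ℝ) ^ (-P.s) := by
  obtain ⟨hν0, hν1, hκν, hην, hφν, hdν, hsν, hg0, hgν, hgκ⟩ := h0.small
  have haR : (0 : ℝ) < a := by
    have : 0 < a := by omega
    exact_mod_cast this
  have hkR : (1 : ℝ) ≤ k := by exact_mod_cast hk
  have hk1R : (1 : ℝ) ≤ k1 := by exact_mod_cast hk1
  have hG := h0.Gk_pos hk
  have hW := h0.Wk_pos hk1
  rcases J.eq_empty_or_nonempty with hE | ⟨n, hn⟩
  · rw [hE]
    simp only [Finset.card_empty, Nat.cast_zero, zero_mul]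
    positivity
  obtain ⟨b1, b2, _, _, _⟩ := hJ n hn
  obtain ⟨b3, b4⟩ := hY n hn
  have c1 : 2 ^ k1 ≤ n := by rw [← b2]; exact Nat.pow_log_le_self 2 b1
  have c2 : n < 2 ^ (k1 + 1) := by
    rw [← b2]
    exact Nat.lt_pow_succ_log_self (by norm_num) n
  have c1R : (2 : ℝ) ^ (k1 : ℝ) ≤ n := by
    rw [Real.rpow_natCast]
    exact_mod_cast c1
  have c2R : (n : ℝ) ≤ 2 * (2 : ℝ) ^ (k1 : ℝ) := by
    rw [Real.rpow_natCast]
    have : n ≤ 2 * 2 ^ k1 := by
      rw [pow_succ] at c2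
      omega
    exact_mod_cast this
  have b3R : (2 : ℝ) ^ (k : ℝ) ≤ a * n := by
    rw [Real.rpow_natCast]
    exact_mod_cast b3
  have b4R : (a : ℝ) * n ≤ 2 * (2 : ℝ) ^ (k : ℝ) := by
    rw [Real.rpow_natCast]
    have : a * n ≤ 2 * 2 ^ k := by
      rw [pow_succ] at b4
      omega
    exact_mod_cast this
  set L : ℝ := (2 : ℝ) ^ (P.e k1 - P.e' k1) with hL
  have hL0 : 0 < L := by positivity
  set H : ℝ := (2 : ℝ) ^ P.e k with hH
  have hH0 : 0 < H := by positivity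
  have hcard := card_sel hc hd S he1 a Y (2 ^ P.e k) (by omega) J hJ
  have hHc : (((2 ^ P.e k : ℕ) : ℝ)) = H := by rw [hH]; push_cast; rfl
  rw [hHc, ← hL] at hcard
  -- `a L ≤ 8 H`
  have hA : a * L ≤ 8 * H := by
    have d1 : (a : ℝ) * (2 : ℝ) ^ (k1 : ℝ) ≤ 2 * (2 : ℝ) ^ (k : ℝ) :=
      (mul_le_mul_of_nonneg_left c1R haR.le).trans b4R
    have d2 : (2 : ℝ) ^ ((1/2 - P.d - 4 * P.ν) * k1) =
        (2 : ℝ) ^ (k1 : ℝ) * (2 : ℝ) ^ (-((1/2 + P.d + 4 * P.ν) * k1)) := by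
      rw [← Real.rpow_add (by norm_num)]
      congr 1
      ring
    calc a * L ≤ a * (4 * ((2 : ℝ) ^ (k1 : ℝ) * (2 : ℝ) ^ (-((1/2 + P.d + 4 * P.ν) * k1)))) := by
          rw [← d2]
          exact mul_le_mul_of_nonneg_left hs1 haR.le
      _ = 4 * ((a : ℝ) * (2 : ℝ) ^ (k1 : ℝ)) * (2 : ℝ) ^ (-((1/2 + P.d + 4 * P.ν) * k1)) := by ring
      _ ≤ 4 * (2 * (2 : ℝ) ^ (k : ℝ)) * (2 : ℝ) ^ (-((1/2 + P.d + 4 * P.ν) * k1)) := by
          apply mul_le_mul_of_nonneg_right _ (by positivity)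
          linarith
      _ = 8 * (2 : ℝ) ^ ((k : ℝ) - (1/2 + P.d + 4 * P.ν) * k1) := by
          rw [sub_eq_add_neg, Real.rpow_add (by norm_num)]
          ring
      _ ≤ 8 * (2 : ℝ) ^ ((1/2 - 0.02 * P.ν) * k) := by
          apply mul_le_mul_of_nonneg_left _ (by norm_num)
          apply Real.rpow_le_rpow_of_exponent_le (by norm_num)
          have e1 : (1/2 + P.d + 4 * P.ν) * ((1 - 7 * P.ν) * k) ≤ (1/2 + P.d + 4 * P.ν) * k1 := by
            apply mul_le_mul_of_nonneg_left hkk.le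
            rw [hdν]
            positivity
          have e2 : (1/2 + 0.02 * P.ν) * k ≤ (1/2 + P.d + 4 * P.ν) * ((1 - 7 * P.ν) * k) := by
            rw [← mul_assoc]
            apply mul_le_mul_of_nonneg_right _ (by positivity)
            rw [hdν]
            nlinarith
          linarith
      _ ≤ 8 * H := mul_le_mul_of_nonneg_left hs2 (by norm_num)
  have hB : H / (a * L) + 2 ≤ 17 * (H / (a * L)) := by
    have : 1 ≤ 8 * (H / (a * L)) := by
      rw [← mul_div_assoc, le_div_iff₀ (by positivity)]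
      linarith
    linarith
  have hns : (1 : ℝ) ≤ P.nsel k1 := by exact_mod_cast h0.nsel_pos k1
  have hC : (P.nsel k1 : ℝ) * P.Wk k1 = 1/2000 * L * (2 : ℝ) ^ ((P.s - 1) * k1) / k1 ^ 3 := by
    unfold Par.Wk Par.Gk
    have d1 : (2 : ℝ) ^ P.e k1 = (2 : ℝ) ^ P.e' k1 * L := by
      rw [hL, ← pow_add]
      congr 1
      omega
    rw [d1]
    have d2 : (P.nsel k1 : ℝ) ≠ 0 := by linarith
    field_simp
  have hE1 : (2 : ℝ) ^ ((P.s - 1) * k1) ≤ 2 * (2 : ℝ) ^ ((P.s - 1) * k) * (a : ℝ) ^ (1 - P.s) := by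
    have hs1 : P.s - 1 ≤ 0 := by rw [hsν]; linarith
    have hs0 : 0 ≤ P.s := by rw [hsν]; positivity
    have d1 : (2 : ℝ) ^ (k : ℝ) / (2 * a) ≤ (2 : ℝ) ^ (k1 : ℝ) := by
      rw [div_le_iff₀ (by positivity)]
      have := b3R.trans (mul_le_mul_of_nonneg_left c2R haR.le)
      linarith
    have d2 := Real.rpow_le_rpow_of_nonpos (by positivity) d1 hs1
    have d3 : ((2 : ℝ) ^ (k1 : ℝ)) ^ (P.s - 1) = (2 : ℝ) ^ ((P.s - 1) * k1) := by
      rw [← Real.rpow_mul (by norm_num)]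
      congr 1
      ring
    have d4 : ((2 : ℝ) ^ (k : ℝ) / (2 * a)) ^ (P.s - 1) =
        (2 : ℝ) ^ (1 - P.s) * (2 : ℝ) ^ ((P.s - 1) * k) * (a : ℝ) ^ (1 - P.s) := by
      rw [Real.div_rpow (by positivity) (by positivity), Real.mul_rpow (by norm_num) haR.le,
        ← Real.rpow_mul (by norm_num), div_eq_mul_inv, mul_inv, ← Real.rpow_neg (by norm_num),
        ← Real.rpow_neg haR.le]
      have e1 : -(P.s - 1) = 1 - P.s := by ring
      rw [e1]
      have e2 : (k : ℝ) * (P.s - 1) = (P.s - 1) * k := by ring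
      rw [e2]
      ring
    rw [d3, d4] at d2
    refine d2.trans ?_
    apply mul_le_mul_of_nonneg_right _ (by positivity)
    apply mul_le_mul_of_nonneg_right _ (by positivity)
    calc (2 : ℝ) ^ (1 - P.s) ≤ (2 : ℝ) ^ (1 : ℝ) :=
          Real.rpow_le_rpow_of_exponent_le (by norm_num) (by linarith)
      _ = 2 := Real.rpow_one 2
  have hF : 1 / (k1 : ℝ) ^ 3 ≤ 2 / (k : ℝ) ^ 3 := by
    rw [div_le_div_iff₀ (by positivity) (by positivity)]
    have d1 : 0.99 * (k : ℝ) ≤ k1 := by nlinarith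
    have d2 : (0.99 * (k : ℝ)) ^ 3 ≤ (k1 : ℝ) ^ 3 := pow_le_pow_left₀ (by positivity) d1 3
    have d3 : (0.99 * (k : ℝ)) ^ 3 = 0.970299 * (k : ℝ) ^ 3 := by ring
    have d4 : 0 ≤ (k : ℝ) ^ 3 := by positivity
    rw [d3] at d2
    linarith
  have haa : (a : ℝ) ^ (1 - P.s) / a = (a : ℝ) ^ (-P.s) := by
    rw [← Real.rpow_sub_one haR.ne']
    congr 1
    ring
  calc (J.card : ℝ) * P.Wk k1 ≤ (P.nsel k1 * (17 * (H / (a * L)))) * P.Wk k1 := by
        apply mul_le_mul_of_nonneg_right _ hW.le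
        exact hcard.trans (mul_le_mul_of_nonneg_left hB (Nat.cast_nonneg _))
    _ = (P.nsel k1 * P.Wk k1) * (17 * (H / (a * L))) := by ring
    _ = 17/2000 * H * ((2 : ℝ) ^ ((P.s - 1) * k1) * (1 / (k1 : ℝ) ^ 3)) / a := by
        rw [hC]
        field_simp
    _ ≤ 17/2000 * H * ((2 * (2 : ℝ) ^ ((P.s - 1) * k) * (a : ℝ) ^ (1 - P.s)) *
          (2 / (k : ℝ) ^ 3)) / a := by
        apply div_le_div_of_nonneg_right _ haR.le
        apply mul_le_mul_of_nonneg_left _ (by positivity)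
        exact mul_le_mul hE1 hF (by positivity) (by positivity)
    _ = 68 * (1/2000 * H * (2 : ℝ) ^ ((P.s - 1) * k) / k ^ 3) * ((a : ℝ) ^ (1 - P.s) / a) := by
        ring
    _ = 68 * P.Gk k * (a : ℝ) ^ (-P.s) := by
        rw [haa]
        rfl

end C8e

open C8e in
theorem class5 (P : Par) (h0 : PhiFacts P) (hc : CellFacts P) (hd : CdFacts P) (h1 : SizeFacts P)
    (hw : WFacts P) (hsel : WWSel P) (hs : SumWW P) : Class5 P := by
  intro ε hε
  obtain ⟨hν0, hν1, hκν, hην, hφν, hdν, hsν, hg0, hgν, hgκ⟩ := h0.small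
  obtain ⟨K1, hK1⟩ := h1
  obtain ⟨K, hK0, K2, hK2⟩ := hsel
  obtain ⟨K3, hK3⟩ := hs (ε / (136 * K)) (by positivity)
  refine ⟨max (max (2 * K1) K2) (max K3 2), ?_⟩
  intro k0 hk0 hFB S k hk j hj
  simp only [max_le_iff] at hk0
  obtain ⟨⟨hk1, hk2⟩, hk3, hk4⟩ := hk0
  have hkR : (2 : ℝ) ≤ k := by
    have : 2 ≤ k := by omega
    exact_mod_cast this
  have hWWsel := hK2 k0 hk2 hFB S
  have hsum := hK3 k0 hk3 hFB S
  have hnn := hw.WW_nonneg S (by omega)
  set Z := (P.cell k j).filter (fun n => n ∉ S.own k j ∧ ∃ p, S.ctrl p ∧ p ∣ n ∧ S.mo p ∣ n / p ∧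
      (1 - 7 * P.ν) * k < (Nat.log 2 (p * S.mo p) : ℝ) ∧
      (Nat.log 2 (p * S.mo p) : ℝ) < (1 + 7 * P.ν) * k) with hZ
  -- the index set
  set J : ℕ → Finset ℕ := fun a => (Finset.range (2 ^ (k + 1))).filter (fun n0 =>
    (∃ x ∈ S.S, x.1 * x.2 = n0) ∧ a * n0 ∈ P.cell k j ∧ (1 - 7 * P.ν) * k < (Nat.log 2 n0 : ℝ)) with hJ
  clear_value J
  set A := Finset.Icc 2 (2 ^ (k + 1)) with hA
  have hcellk : ∀ n ∈ P.cell k j, n ≠ 0 ∧ Nat.log 2 n = k ∧ P.idx n = j := fun n hn =>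
    (hc.mem_cell hj).mp hn
  have hblock : ∀ n ∈ P.cell k j, 2 ^ k ≤ n ∧ n < 2 ^ (k + 1) := by
    intro n hn
    obtain ⟨b1, b2, _⟩ := hcellk n hn
    constructor
    · rw [← b2]
      exact Nat.pow_log_le_self 2 b1
    · rw [← b2]
      exact Nat.lt_pow_succ_log_self (by norm_num) n
  have hex : ∀ n ∈ Z, ∃ y : ℕ × ℕ, y.1 ∈ A ∧ y.2 ∈ J y.1 ∧ y.1 * y.2 = n := by
    intro n hn
    rw [hZ, Finset.mem_filter] at hn
    obtain ⟨hncell, hnown, p, hp, hpn, hmo, hl1, _⟩ := hn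
    obtain ⟨hpp, _, _, hpS, _⟩ := hw.ctrl_prime S hp
    obtain ⟨b, hb⟩ := hmo
    have hnn' : n = b * (p * S.mo p) := by
      have := Nat.mul_div_cancel' hpn
      rw [hb] at this
      rw [← this]
      ring
    obtain ⟨c1, c2⟩ := hblock n hncell
    have hn0 : n ≠ 0 := (hcellk n hncell).1
    have hb0 : b ≠ 0 := by
      intro h
      rw [h, zero_mul] at hnn'
      exact hn0 hnn'
    have hq0 : p * S.mo p ≠ 0 := by
      intro h
      rw [h, mul_zero] at hnn'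
      exact hn0 hnn'
    have hb1 : b ≠ 1 := by
      intro h
      rw [h, one_mul] at hnn'
      apply hnown
      unfold Par.Sel.own
      rw [Finset.mem_filter]
      refine ⟨hncell, Or.inl ⟨?_, (p, S.mo p), hpS, hnn'.symm⟩⟩
      obtain ⟨k', _, hx'⟩ := S.clean _ hpS
      have hbN := hx'.1.2.2.2.2.2.2
      have hbN' : P.badN n := by
        rw [hnn']
        exact hbN
      unfold Par.badN at hbN'
      rw [(hcellk n hncell).2.1, (hcellk n hncell).2.2] at hbN'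
      exact hbN'
    have hble : b ≤ n := by
      rw [hnn']
      exact Nat.le_mul_of_pos_right _ (Nat.pos_of_ne_zero hq0)
    have hqle : p * S.mo p ≤ n := by
      rw [hnn']
      exact Nat.le_mul_of_pos_left _ (Nat.pos_of_ne_zero hb0)
    refine ⟨(b, p * S.mo p), ?_, ?_, hnn'.symm⟩
    · rw [hA, Finset.mem_Icc]
      omega
    · rw [hJ]
      simp only
      rw [Finset.mem_filter, Finset.mem_range]
      refine ⟨by omega, ⟨(p, S.mo p), hpS, rfl⟩, ?_, hl1⟩
      rw [← hnn']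
      exact hncell
  choose! F hF1 hF2 hF3 using hex
  have hinj : Set.InjOn F Z := by
    intro a ha b hb hab
    rw [← hF3 a ha, ← hF3 b hb, hab]
  have hstep1 : ∑ n ∈ Z, S.WW n ≤ ∑ a ∈ A, ∑ n0 ∈ J a, S.WW (a * n0) := by
    rw [← Finset.sum_sigma A J (fun y => S.WW (y.1 * y.2))]
    have e1 : ∑ n ∈ Z, S.WW n =
        ∑ y ∈ Z.image (fun n => (⟨(F n).1, (F n).2⟩ : Σ _ : ℕ, ℕ)), S.WW (y.1 * y.2) := by
      rw [Finset.sum_image]
      · apply Finset.sum_congr rfl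
        intro n hn
        simp only
        rw [hF3 n hn]
      · intro a ha b hb hab
        simp only [Sigma.mk.injEq, heq_eq_eq] at hab
        exact hinj ha hb (Prod.ext hab.1 hab.2)
    rw [e1]
    apply Finset.sum_le_sum_of_subset_of_nonneg
    · intro y hy
      rw [Finset.mem_image] at hy
      obtain ⟨n, hn, rfl⟩ := hy
      rw [Finset.mem_sigma]
      exact ⟨hF1 n hn, hF2 n hn⟩
    · intro y _ _
      exact hnn _
  have hstep2 : ∀ a ∈ A, ∑ n0 ∈ J a, S.WW (a * n0) ≤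
      136 * K * P.Gk k * (S.WW a * (a : ℝ) ^ (-P.s)) := by
    intro a ha
    rw [hA, Finset.mem_Icc] at ha
    have hJmem : ∀ n0 ∈ J a, n0 ≠ 0 ∧ (∃ x ∈ S.S, x.1 * x.2 = n0) ∧ a * n0 ∈ P.cell k j ∧
        (1 - 7 * P.ν) * k < (Nat.log 2 n0 : ℝ) := by
      intro n0 hn0
      rw [hJ] at hn0
      simp only at hn0
      rw [Finset.mem_filter] at hn0
      refine ⟨?_, hn0.2⟩
      intro h
      have := (hcellk _ hn0.2.2.1).1
      rw [h, mul_zero] at this
      exact this rfl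
    have e1 : ∑ n0 ∈ J a, S.WW (a * n0) ≤ S.WW a * (K * ∑ n0 ∈ J a, P.Wk (Nat.log 2 n0)) := by
      rw [Finset.mul_sum, Finset.mul_sum]
      apply Finset.sum_le_sum
      intro n0 hn0
      obtain ⟨c1, ⟨x, hx, hxn⟩, _, _⟩ := hJmem n0 hn0
      rw [hw.WW_mul S (by omega) c1]
      apply mul_le_mul_of_nonneg_left _ (hnn a)
      have := hWWsel x hx
      rw [hxn] at this
      exact this
    -- the two scales
    have hlog : ∀ n0 ∈ J a, Nat.log 2 n0 = k - Nat.log 2 a ∨ Nat.log 2 n0 = k - Nat.log 2 a - 1 := by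
      intro n0 hn0
      obtain ⟨c1, _, c3, _⟩ := hJmem n0 hn0
      obtain ⟨d1, d2⟩ := hblock _ c3
      have f1 : 2 ^ Nat.log 2 a ≤ a := Nat.pow_log_le_self 2 (by omega)
      have f2 : a < 2 ^ (Nat.log 2 a + 1) := Nat.lt_pow_succ_log_self (by norm_num) a
      have f3 : 2 ^ Nat.log 2 n0 ≤ n0 := Nat.pow_log_le_self 2 c1
      have f4 : n0 < 2 ^ (Nat.log 2 n0 + 1) := Nat.lt_pow_succ_log_self (by norm_num) n0
      have g1 : 2 ^ (Nat.log 2 a + Nat.log 2 n0) < 2 ^ (k + 1) := by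
        rw [pow_add]
        exact lt_of_le_of_lt (Nat.mul_le_mul f1 f3) d2
      have g2 : 2 ^ k < 2 ^ ((Nat.log 2 a + 1) + (Nat.log 2 n0 + 1)) := by
        rw [pow_add]
        refine lt_of_le_of_lt d1 ?_
        exact Nat.mul_lt_mul'' f2 f4
      have g3 := (Nat.pow_lt_pow_iff_right (by norm_num : 1 < 2)).mp g1
      have g4 := (Nat.pow_lt_pow_iff_right (by norm_num : 1 < 2)).mp g2
      omega
    have e2 : ∀ k1 : ℕ, ∑ n0 ∈ (J a).filter (fun n => Nat.log 2 n = k1), P.Wk (Nat.log 2 n0) ≤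
        68 * P.Gk k * (a : ℝ) ^ (-P.s) := by
      intro k1
      have e3 : ∑ n0 ∈ (J a).filter (fun n => Nat.log 2 n = k1), P.Wk (Nat.log 2 n0) =
          (((J a).filter (fun n => Nat.log 2 n = k1)).card : ℝ) * P.Wk k1 := by
        rw [← nsmul_eq_mul, ← Finset.sum_const]
        apply Finset.sum_congr rfl
        intro n0 hn0
        rw [Finset.mem_filter] at hn0
        rw [hn0.2]
      rw [e3]
      rcases ((J a).filter (fun n => Nat.log 2 n = k1)).eq_empty_or_nonempty with hE | ⟨n1, hn1⟩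
      · rw [hE]
        simp only [Finset.card_empty, Nat.cast_zero, zero_mul]
        have := h0.Gk_pos (k := k) (by omega)
        positivity
      · rw [Finset.mem_filter] at hn1
        have hkk := (hJmem n1 hn1.1).2.2.2
        rw [hn1.2] at hkk
        have hk1R : (k : ℝ) / 2 < k1 := by nlinarith
        have hk1N : K1 ≤ k1 := by
          have f1 : ((2 * K1 : ℕ) : ℝ) ≤ k := by
            have : 2 * K1 ≤ k := by omega
            exact_mod_cast this
          push_cast at f1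
          have f2 : (K1 : ℝ) ≤ k1 := by linarith
          exact_mod_cast f2
        have hk1p : 1 ≤ k1 := by
          have : (0 : ℝ) < k1 := by linarith
          exact_mod_cast this
        obtain ⟨s1, _, _, _, _, s6, _, _, _⟩ := hK1 k1 hk1N
        obtain ⟨_, _, t3, _, _, _, _, _, _⟩ := hK1 k (by omega)
        refine one_scale h0 hc hd S (by omega) hk1p (by omega) s6 t3 hkk a
          (2 ^ k + j * 2 ^ P.e k) ha.1 _ ?_ ?_
        · intro n hn
          rw [Finset.mem_filter] at hn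
          obtain ⟨c1, c2, c3, _⟩ := hJmem n hn.1
          have c4 := c3
          unfold Par.cell at c4
          rw [Finset.mem_Ico] at c4
          refine ⟨c1, hn.2, c2, c4.1, ?_⟩
          have : 2 ^ k + j * 2 ^ P.e k + 2 ^ P.e k = 2 ^ k + (j + 1) * 2 ^ P.e k := by ring
          rw [this]
          exact c4.2
        · intro n hn
          rw [Finset.mem_filter] at hn
          exact hblock _ (hJmem n hn.1).2.2.1
    have e4 : ∑ n0 ∈ J a, P.Wk (Nat.log 2 n0) ≤ 136 * P.Gk k * (a : ℝ) ^ (-P.s) := by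
      have f1 := e2 (k - Nat.log 2 a)
      have f2 := e2 (k - Nat.log 2 a - 1)
      have f3 : J a ⊆ (J a).filter (fun n => Nat.log 2 n = k - Nat.log 2 a) ∪
          (J a).filter (fun n => Nat.log 2 n = k - Nat.log 2 a - 1) := by
        intro n hn
        rw [Finset.mem_union, Finset.mem_filter, Finset.mem_filter]
        rcases hlog n hn with h | h
        · exact Or.inl ⟨hn, h⟩
        · exact Or.inr ⟨hn, h⟩
      have hpos : ∀ n0 ∈ J a, 0 ≤ P.Wk (Nat.log 2 n0) := by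
        intro n0 hn0
        apply (h0.Wk_pos _).le
        have := (hJmem n0 hn0).2.2.2
        have f4 : (0 : ℝ) < (Nat.log 2 n0 : ℝ) := by nlinarith
        exact_mod_cast f4
      have f5 : ∑ n0 ∈ J a, P.Wk (Nat.log 2 n0) ≤
          ∑ n0 ∈ (J a).filter (fun n => Nat.log 2 n = k - Nat.log 2 a) ∪
          (J a).filter (fun n => Nat.log 2 n = k - Nat.log 2 a - 1), P.Wk (Nat.log 2 n0) := by
        apply Finset.sum_le_sum_of_subset_of_nonneg f3
        intro n hn _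
        rw [Finset.mem_union, Finset.mem_filter, Finset.mem_filter] at hn
        rcases hn with h | h
        · exact hpos n h.1
        · exact hpos n h.1
      have f6 := Finset.sum_union_inter (s₁ := (J a).filter (fun n => Nat.log 2 n = k - Nat.log 2 a))
        (s₂ := (J a).filter (fun n => Nat.log 2 n = k - Nat.log 2 a - 1))
        (f := fun n0 => P.Wk (Nat.log 2 n0))
      have f7 : 0 ≤ ∑ n0 ∈ (J a).filter (fun n => Nat.log 2 n = k - Nat.log 2 a) ∩
          (J a).filter (fun n => Nat.log 2 n = k - Nat.log 2 a - 1), P.Wk (Nat.log 2 n0) := by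
        apply Finset.sum_nonneg
        intro n hn
        rw [Finset.mem_inter, Finset.mem_filter] at hn
        exact hpos n hn.1.1
      linarith
    refine e1.trans ?_
    have e5 : S.WW a * (K * ∑ n0 ∈ J a, P.Wk (Nat.log 2 n0)) ≤
        S.WW a * (K * (136 * P.Gk k * (a : ℝ) ^ (-P.s))) :=
      mul_le_mul_of_nonneg_left (mul_le_mul_of_nonneg_left e4 hK0.le) (hnn a)
    refine e5.trans (le_of_eq ?_)
    ring
  have hG := h0.Gk_pos (k := k) (by omega)
  calc ∑ n ∈ Z, S.WW n ≤ ∑ a ∈ A, ∑ n0 ∈ J a, S.WW (a * n0) := hstep1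
    _ ≤ ∑ a ∈ A, 136 * K * P.Gk k * (S.WW a * (a : ℝ) ^ (-P.s)) := Finset.sum_le_sum hstep2
    _ = 136 * K * P.Gk k * ∑ a ∈ A, S.WW a * (a : ℝ) ^ (-P.s) := by rw [Finset.mul_sum]
    _ ≤ 136 * K * P.Gk k * (ε / (136 * K)) := by
        apply mul_le_mul_of_nonneg_left _ (by positivity)
        apply hsum A
        intro r hr
        rw [hA, Finset.mem_Icc] at hr
        exact hr.1
    _ = ε * P.Gk k := by
        field_simp

end Pool.Agent.Helper28.QRH
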